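import Pool.Agent.H938_Dens.Main

set_option autoImplicit false

/-!
# Pointwise convergence of the approximating densities of Bernoulli convolutions

If the Bernoulli convolution `ν_β`, `1 < β < 2`, is absolutely continuous, then the approximating
densities `f_n` converge to its density almost everywhere.
-/

open MeasureTheory Filter Topology

namespace Pool.Agent.Results.MP_ddcbd8_an.AbsolutelyContinuousCase

/-- For every `β ∈ (1, 2)` for which the law of `∑_{k ≥ 1} a_k β^{-k}` (independent uniform digits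
`a_k ∈ {0, 1}`) is absolutely continuous, the functions `f_n` given by `f_0 = (β - 1) 1_I` and
`f_{n+1}(x) = (β/2) (f_n(β x) + f_n(β x - 1))` on `I = [0, 1/(β-1)]`, zero outside `I`, converge
almost everywhere to the density (the Radon-Nikodym derivative) of this law. -/
theorem result (β : ℝ) (h1 : 1 < β) (h2 : β < 2)
    (hac : Measure.map
        (fun ω : ℕ → Bool => ∑' k : ℕ, (if ω k then (1 : ℝ) else 0) * (β⁻¹) ^ (k + 1))
        (Measure.infinitePi (fun _ : ℕ => (PMF.uniformOfFintype Bool).toMeasure))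
      ≪ (volume : Measure ℝ))
    (f : ℕ → ℝ → ℝ)
    (hf0 : ∀ x : ℝ, (x ∈ Set.Icc 0 (1 / (β - 1)) → f 0 x = β - 1) ∧
      (x ∉ Set.Icc 0 (1 / (β - 1)) → f 0 x = 0))
    (hf : ∀ (n : ℕ) (x : ℝ),
      (x ∈ Set.Icc 0 (1 / (β - 1)) →
        f (n + 1) x = β / 2 * (f n (β * x) + f n (β * x - 1))) ∧
      (x ∉ Set.Icc 0 (1 / (β - 1)) → f (n + 1) x = 0)) :
    ∀ᵐ x ∂(volume : Measure ℝ), Tendsto (fun n => f n x) atTop
      (𝓝 ((Measure.map
        (fun ω : ℕ → Bool => ∑' k : ℕ, (if ω k then (1 : ℝ) else 0) * (β⁻¹) ^ (k + 1))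
        (Measure.infinitePi (fun _ : ℕ => (PMF.uniformOfFintype Bool).toMeasure))).rnDeriv
          volume x).toReal) := by
  have key : ∀ n x, f n x = Pool.Agent.H938D.fB β n x := by
    intro n
    induction n with
    | zero =>
      intro x
      by_cases hx : x ∈ Set.Icc 0 (1 / (β - 1))
      · rw [(hf0 x).1 hx]
        simp only [Pool.Agent.H938D.fB, Pool.Agent.H938D.IB]
        rw [Set.indicator_of_mem hx]
      · rw [(hf0 x).2 hx]
        simp only [Pool.Agent.H938D.fB, Pool.Agent.H938D.IB]
        rw [Set.indicator_of_notMem hx]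
    | succ n ih =>
      intro x
      by_cases hx : x ∈ Set.Icc 0 (1 / (β - 1))
      · rw [(hf n x).1 hx, ih, ih]
        simp only [Pool.Agent.H938D.fB, Pool.Agent.H938D.IB]
        rw [Set.indicator_of_mem hx]
      · rw [(hf n x).2 hx]
        simp only [Pool.Agent.H938D.fB, Pool.Agent.H938D.IB]
        rw [Set.indicator_of_notMem hx]
  have h := Pool.Agent.H938D.Q2 h1 h2 hac
  filter_upwards [h] with x hx
  simp only [key]
  exact hx

end Pool.Agent.Results.MP_ddcbd8_an.AbsolutelyContinuousCase
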